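import Mathlib
import Pool.Agent.LeoK.CountStmts

/-!
# Squad leok, module CNT: the final inequality of the counting part
-/

set_option autoImplicit false

open NumberField IsDedekindDomain Module MeasureTheory Filter Topology

namespace Pool.Agent.LeoK.H33

/-- the choice of the small parameter -/
theorem small {c ε : ℝ} (hc : 0 < c) (hε : 0 < ε) : ∃ θ : ℝ, 0 < θ ∧ θ ≤ 1 / 2 ∧ θ < c ∧
    2 * θ + (c / 2 + θ) / (1 - θ) ≤ (1 / 2 + ε) * (c - θ) := by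
  have h5 : 0 < 5 + c + ε := by positivity
  obtain ⟨θ, hθ⟩ : ∃ θ : ℝ, θ = min (1 / 2) (min (c / 2) (ε * c / (5 + c + ε))) := ⟨_, rfl⟩
  have h1 : θ ≤ 1 / 2 := by rw [hθ]; exact min_le_left _ _
  have h2 : θ ≤ ε * c / (5 + c + ε) := by
    rw [hθ]; exact (min_le_right _ _).trans (min_le_right _ _)
  have h2' : θ ≤ c / 2 := by
    rw [hθ]; exact (min_le_right _ _).trans (min_le_left _ _)
  have h0 : 0 < θ := by
    rw [hθ]
    exact lt_min (by norm_num) (lt_min (by positivity) (by positivity))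
  have h3 : θ * (5 + c + ε) ≤ ε * c := by
    rwa [le_div_iff₀ h5] at h2
  have h4 : (c / 2 + θ) / (1 - θ) ≤ (c / 2 + θ) * (1 + 2 * θ) := by
    rw [div_le_iff₀ (by linarith)]
    have : 1 ≤ (1 + 2 * θ) * (1 - θ) := by nlinarith
    have hpos : 0 < c / 2 + θ := by positivity
    nlinarith
  refine ⟨θ, h0, h1, by linarith, ?_⟩
  nlinarith

/-- the finite product is close to the infinite one -/
theorem small2 {a b s : ℝ} (ha : 0 < a) (hb : 0 < b) (hs : 0 < s) : ∃ e : ℝ, 0 < e ∧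
    (a + e) * (b + e) ≤ a * b + s := by
  have h : 0 < a + b + 1 := by positivity
  refine ⟨min 1 (s / (a + b + 1)), lt_min one_pos (by positivity), ?_⟩
  obtain ⟨e, he⟩ : ∃ e : ℝ, e = min 1 (s / (a + b + 1)) := ⟨_, rfl⟩
  rw [← he]
  have h1 : e ≤ 1 := by rw [he]; exact min_le_left _ _
  have h2 : e ≤ s / (a + b + 1) := by rw [he]; exact min_le_right _ _
  have h0 : 0 < e := by rw [he]; exact lt_min one_pos (by positivity)
  have h3 : e * (a + b + 1) ≤ s := by rwa [le_div_iff₀ h] at h2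
  nlinarith

section mirror

variable {k : Type} [Field k] [NumberField k]

theorem qP_mir (v : Q4 (𝓞 k)) : qP (mir v) = qP v := by
  simp only [qP, mir, fP, Matrix.cons_val_zero, Matrix.cons_val_one, Matrix.cons_val]
  ring

theorem qM_mir (v : Q4 (𝓞 k)) : qM (mir v) = qM v := by
  simp only [qM, mir, fM, fP, fQ, fR, Matrix.cons_val_zero, Matrix.cons_val_one, Matrix.cons_val]
  ring

theorem hes_mir (v : Q4 (𝓞 k)) (X Y : 𝓞 k) : hes (mir v) X Y = hes v (-X) Y := by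
  simp only [hes, mir, fP, fQ, fR, Matrix.cons_val_zero, Matrix.cons_val_one, Matrix.cons_val]
  ring

theorem hx_mir (v : Q4 (𝓞 k)) (X Y : 𝓞 k) : hx (mir v) X Y = hx v (-X) Y := by
  funext s
  rw [hx, hx, hes_mir, qM_mir]

theorem lrg_mir {δ : ℝ} {v : Q4 (𝓞 k)} (h : Lrg δ v) : Lrg δ (mir v) := by
  refine ⟨fun s => ?_, fun s => ?_, fun X Y hXY => ?_⟩
  · rw [qP_mir]; exact h.posP s
  · rw [qM_mir]; exact h.posM s
  · rw [hx_mir]
    refine h.short (-X) Y ?_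
    rcases hXY with h' | h'
    · exact Or.inl (neg_ne_zero.2 h')
    · exact Or.inr h'

end mirror

theorem cnt (low : LowStmt) (msq : MsqStmt) (mst : MstStmt) (upp : UppStmt) (den : DenStmt)
    (inj : InjStmt) (exc : ExcStmt) (usq : UsqStmt) (pik : PikStmt) (con : ConStmt) :
    CntStmt := by
  classical
  intro k _ _ htr Φ
  obtain ⟨hcard, hD, hvF, hcF, -, -⟩ := con k htr Φ
  obtain ⟨hMfin, ⟨AM, hAM, hAMle⟩, hMlow⟩ := msq k htr Φ
  obtain ⟨-, hPk, hDk, -, hPle, hPeps⟩ := pik k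
  obtain ⟨n, hn⟩ : ∃ n : ℕ, n = finrank ℚ k := ⟨_, rfl⟩
  rw [← hn] at hMlow
  obtain ⟨cM, hcM⟩ : ∃ cM : ℝ, cM = Dk k * Φ.vF / (Φ.D * 2 ^ n) := ⟨_, rfl⟩
  have hcM0 : 0 < cM := by rw [hcM]; positivity
  rw [← hcM] at hMlow
  refine ⟨hMfin, ⟨cM / 2, by positivity, ?_⟩, ?_⟩
  · obtain ⟨Z₀, hZ₀⟩ := hMlow (cM / 2) (by positivity)
    filter_upwards [eventually_ge_atTop Z₀] with Z hZ
    have := hZ₀ Z hZ
    have e : cM - cM / 2 = cM / 2 := by ring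
    rwa [e] at this
  intro ε hε
  obtain ⟨θ, hθ0, hθ1, hθc, hθ⟩ := small hcM0 hε
  -- small norms and short vectors
  obtain ⟨AE, hAE, hexc⟩ := exc k htr Φ
  obtain ⟨AS, hAS, hmst⟩ := mst k htr Φ
  obtain ⟨η', hη'0, hη'1, hη'⟩ : ∃ η' : ℝ, 0 < η' ∧ η' ≤ 1 ∧ AM * η' ≤ θ := by
    refine ⟨min 1 (θ / AM), lt_min one_pos (by positivity), min_le_left _ _, ?_⟩
    calc AM * min 1 (θ / AM) ≤ AM * (θ / AM) :=
          mul_le_mul_of_nonneg_left (min_le_right _ _) hAM.le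
      _ = θ := by field_simp
  obtain ⟨δ, hδ0, hδ1, hδ⟩ : ∃ δ : ℝ, 0 < δ ∧ δ ≤ 1 ∧ AE * δ ≤ θ := by
    refine ⟨min 1 (θ / AE), lt_min one_pos (by positivity), min_le_left _ _, ?_⟩
    calc AE * min 1 (θ / AE) ≤ AE * (θ / AE) :=
          mul_le_mul_of_nonneg_left (min_le_right _ _) hAE.le
      _ = θ := by field_simp
  obtain ⟨T, η, hT, hη0, hη1, hlow⟩ := low k htr Φ δ θ hδ0 hθ0
  rw [← hn] at hlow
  obtain ⟨cL, hcL⟩ : ∃ cL : ℝ, cL = Pk k * (2 * Real.pi) ^ n * Φ.vF * T / Φ.D ^ 2 := ⟨_, rfl⟩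
  have hcL0 : 0 < cL := by rw [hcL]; positivity
  obtain ⟨K, hK⟩ : ∃ K : ℝ, K = Real.pi ^ n * T * Φ.vF ^ 2 / Φ.D ^ 3 := ⟨_, rfl⟩
  have hK0 : 0 < K := by rw [hK]; positivity
  have hKc : Pk k * Dk k * K = cL * cM := by
    rw [hK, hcL, hcM, mul_pow]
    field_simp
  rw [← hcL] at hlow
  -- the residue classes
  obtain ⟨e, he0, he⟩ := small2 hPk hDk (s := cL * θ / K) (by positivity)
  obtain ⟨Q, hQ⟩ := hPeps e he0
  obtain ⟨hQ1, hQ2⟩ := hQ Q le_rfl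
  obtain ⟨S, hS, hScard⟩ := den k Q
  have hdf : ∏ p ∈ Q, df p ≤ Pk k * Dk k + cL * θ / K := by
    have h1 : ∏ p ∈ Q, df p = (∏ p ∈ Q, (1 - 1 / np p ^ 2)) * ∏ p ∈ Q, dm p := by
      rw [← Finset.prod_mul_distrib]
      rfl
    rw [h1]
    refine le_trans (mul_le_mul hQ1 hQ2 ?_ ?_) he
    · exact hDk.le.trans (hPle Q).2
    · positivity
  have hN0 : (∏ p ∈ Q, p.asIdeal ^ 2 : Ideal (𝓞 k)) ≠ ⊥ := by
    rw [← Ideal.zero_eq_bot]
    exact Finset.prod_ne_zero_iff.2 fun p _ => pow_ne_zero 2 p.ne_bot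
  obtain ⟨η₂, hη₂⟩ : ∃ η₂ : ℝ, η₂ = min η η' := ⟨_, rfl⟩
  have hη₂0 : 0 < η₂ := by rw [hη₂]; exact lt_min hη0 hη'0
  obtain ⟨Z₁, hZ₁, hupp⟩ := upp k htr Φ (∏ p ∈ Q, p.asIdeal ^ 2) hN0 S T η₂ (cL * θ) hT hη₂0
    (by rw [hη₂]; exact (min_le_left _ _).trans hη1) (by positivity)
  rw [← hn, ← hK] at hupp
  obtain ⟨Z₂, hZ₂⟩ := hMlow θ hθ0
  filter_upwards [eventually_ge_atTop Z₁, eventually_ge_atTop Z₂,
    eventually_gt_atTop (1 / η')] with Z hZZ₁ hZZ₂ hZη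
  have hZ1 : 1 ≤ Z := hZ₁.trans hZZ₁
  have hZ0 : 0 < Z := by linarith
  have hηZ : 1 < η' * Z := by
    rw [div_lt_iff₀ hη'0] at hZη
    linarith
  obtain ⟨hUfin, hUle⟩ := hupp Z hZZ₁
  -- the three sets
  obtain ⟨S1, hS1⟩ : ∃ S1 : Set (𝓞 k), S1 = Mset Φ (η' * Z) := ⟨_, rfl⟩
  obtain ⟨S2, hS2⟩ : ∃ S2 : Set (𝓞 k), S2 = {m : 𝓞 k | lam (m : k) ∈ Φ.F ∧
      ∏ s : Sg k, s (m : k) ≤ Z ∧
      ∃ (v : Q4 (𝓞 k)) (X Y : 𝓞 k), qM v = m ∧ Irr (v 0) (v 1) (v 2) (v 3) ∧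
        (∀ s : Sg k, 0 < s ((qP v : 𝓞 k) : k)) ∧ (X ≠ 0 ∨ Y ≠ 0) ∧
        ∏ s, hx v X Y s < δ} := ⟨_, rfl⟩
  obtain ⟨S3, hS3⟩ : ∃ S3 : Set (𝓞 k), S3 = {m : 𝓞 k | m ∈ Mset Φ Z ∧
      η' * Z ≤ ∏ s : Sg k, s (m : k) ∧ ∃ v : Q4 (𝓞 k), qM v = m ∧
        Irr (v 0) (v 1) (v 2) (v 3) ∧ Lrg δ v} := ⟨_, rfl⟩
  have f1 : S1.Finite := by rw [hS1]; exact hMfin _
  have f2 : S2.Finite := by
    rw [hS2]
    exact (hmst Z hZ0).1.subset fun m hm => ⟨hm.1, hm.2.1⟩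
  have f3 : S3.Finite := by
    rw [hS3]
    exact (hMfin Z).subset fun m hm => hm.1
  have hpos : ∀ m : 𝓞 k, m ∈ Mset Φ Z → ∀ s : Sg k, 0 < s (m : k) := fun m hm s =>
    Φ.pos _ hm.1 s
  have hsub : {m | m ∈ Mset Φ Z ∧ ((∃ x : k, x ^ 2 = 3 * (m : k)) ∨
        ∃ a b c d : 𝓞 k, Irr a b c d ∧ (∀ φ : k →+* ℝ, 0 < φ (fP a b c : 𝓞 k)) ∧
          fM a b c d = m)} ⊆ S1 ∪ (S2 ∪ S3) := by
    rintro m ⟨hm, hor⟩
    by_cases hsmall : ∏ s : Sg k, s (m : k) ≤ η' * Z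
    · left
      rw [hS1]
      exact ⟨hm.1, hsmall, hm.2.2.1, hm.2.2.2⟩
    · right
      push Not at hsmall
      rcases hor with ⟨x, hx⟩ | ⟨a, b, c, d, hirr, hP, hMm⟩
      · exfalso
        have h1 := usq k htr m x hm.2.2.2 hx
        have h2 : ∏ s : Sg k, |s (m : k)| = ∏ s : Sg k, s (m : k) :=
          Finset.prod_congr rfl fun s _ => abs_of_pos (hpos m hm s)
        rw [h2] at h1
        linarith
      · by_cases hsh : ∃ X Y : 𝓞 k, (X ≠ 0 ∨ Y ≠ 0) ∧ ∏ s, hx ![a, b, c, d] X Y s < δ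
        · obtain ⟨X, Y, hXY, hlt⟩ := hsh
          left
          rw [hS2]
          exact ⟨hm.1, hm.2.1, ![a, b, c, d], X, Y, hMm, hirr, hP, hXY, hlt⟩
        · push Not at hsh
          right
          rw [hS3]
          refine ⟨hm, hsmall.le, ![a, b, c, d], hMm, hirr, ⟨hP, fun s => ?_, hsh⟩⟩
          have : qM ![a, b, c, d] = m := hMm
          rw [this]
          exact hpos m hm s
  have hcount := Set.ncard_le_ncard hsub (f1.union (f2.union f3))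
  have hc1 : (S1.ncard : ℝ) ≤ θ * Z := by
    rw [hS1]
    refine (hAMle (η' * Z) (by positivity)).trans ?_
    rw [← mul_assoc]
    exact mul_le_mul_of_nonneg_right hη' hZ0.le
  have hc2 : (S2.ncard : ℝ) ≤ θ * Z := by
    rw [hS2]
    exact (hexc δ Z hδ0 hδ1 hZ1).trans (mul_le_mul_of_nonneg_right hδ hZ0.le)
  -- the main part
  obtain ⟨U, hU⟩ : ∃ U : Set (Q4 (𝓞 k)), U = {v : Q4 (𝓞 k) |
      modQ (∏ p ∈ Q, p.asIdeal ^ 2) v ∈ S ∧ Reg Φ (ZSpan.fundamentalDomain Φ.B) Z T v ∧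
        (∀ s : Sg k, η₂ * s ((qM v : 𝓞 k) : k) ^ (1 / 4 : ℝ) ≤ |s (v 0 : k)|) ∧
        η₂ * Z ≤ ∏ s : Sg k, s ((qM v : 𝓞 k) : k)} := ⟨_, rfl⟩
  rw [← hU] at hUfin hUle
  have hWU : ∀ m ∈ S3, Wset Φ T η m ⊆ U := by
    intro m hm w hw
    rw [hS3] at hm
    obtain ⟨hmM, hmη, -⟩ := hm
    obtain ⟨w1, w2, w3, w4, w5, w6⟩ := hw
    rw [hU]
    refine ⟨hS w fun p _ => ?_, ⟨w2, w3, ?_, w4, ?_, w5⟩, fun s => ?_, ?_⟩
    · rw [w1]
      exact hmM.2.2.2 p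
    · rw [w1]
      exact hmM.1
    · rw [w1]
      exact hmM.2.1
    · refine le_trans (mul_le_mul_of_nonneg_right ?_ ?_) (w6 s)
      · rw [hη₂]; exact min_le_left _ _
      · rw [w1]
        exact Real.rpow_nonneg (hpos m hmM s).le _
    · rw [w1]
      refine le_trans (mul_le_mul_of_nonneg_right ?_ hZ0.le) hmη
      rw [hη₂]; exact min_le_right _ _
  have hWbig : ∀ m ∈ S3, 2 * ((1 - θ) * cL) ≤ ((Wset Φ T η m).ncard : ℝ) := by
    intro m hm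
    have hWf : (Wset Φ T η m).Finite := hUfin.subset (hWU m hm)
    have hm' := hm
    rw [hS3] at hm'
    obtain ⟨hmM, hmη, v, hvm, hirr, hlrg⟩ := hm'
    obtain ⟨-, h1⟩ := hlow v hlrg
    obtain ⟨-, h2⟩ := hlow (mir v) (lrg_mir hlrg)
    have hsq : ∀ x : k, x ^ 2 ≠ 3 * ((qM v : 𝓞 k) : k) := by
      intro x hx
      rw [hvm] at hx
      have h1 := usq k htr m x hmM.2.2.2 hx
      have h2 : ∏ s : Sg k, |s (m : k)| = ∏ s : Sg k, s (m : k) :=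
        Finset.prod_congr rfl fun s _ => abs_of_pos (hpos m hmM s)
      rw [h2] at h1
      linarith
    have h3 := inj k htr Φ T η v hirr hlrg.posP hlrg.posM hsq (by rw [hvm]; exact hWf)
    rw [hvm] at h3
    have h4 : ((Mks Φ T η v).ncard : ℝ) + ((Mks Φ T η (mir v)).ncard : ℝ) ≤
        ((Wset Φ T η m).ncard : ℝ) := by exact_mod_cast h3
    linarith
  have hc3' : (S3.ncard : ℝ) * (2 * ((1 - θ) * cL)) ≤ (U.ncard : ℝ) := by
    rw [Set.ncard_eq_toFinset_card U hUfin, Set.ncard_eq_toFinset_card S3 f3]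
    have h1 : (∑ m ∈ f3.toFinset, (((hUfin.toFinset.filter fun w => qM w = m).card : ℕ) : ℝ)) ≤
        (hUfin.toFinset.card : ℝ) := by
      have h2 : (hUfin.toFinset.filter fun w => qM w ∈ f3.toFinset).card =
          ∑ m ∈ f3.toFinset, ((hUfin.toFinset.filter fun w => qM w ∈ f3.toFinset).filter
            fun w => qM w = m).card :=
        Finset.card_eq_sum_card_fiberwise fun w hw => (Finset.mem_filter.1 hw).2
      have h3 : (hUfin.toFinset.filter fun w => qM w ∈ f3.toFinset).card ≤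
        hUfin.toFinset.card := Finset.card_filter_le _ _
      have h4 : ∀ m ∈ f3.toFinset, (hUfin.toFinset.filter fun w => qM w = m).card =
          ((hUfin.toFinset.filter fun w => qM w ∈ f3.toFinset).filter fun w => qM w = m).card := by
        intro m hm
        rw [Finset.filter_filter]
        congr 1
        ext w
        simp only [Finset.mem_filter]
        constructor
        · rintro ⟨a, b⟩
          exact ⟨a, by rw [b]; exact hm, b⟩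
        · rintro ⟨a, -, b⟩
          exact ⟨a, b⟩
      rw [← Nat.cast_sum, Finset.sum_congr rfl h4, ← h2]
      exact_mod_cast h3
    refine le_trans ?_ h1
    rw [← nsmul_eq_mul, ← Finset.sum_const]
    refine Finset.sum_le_sum fun m hm => ?_
    have hm' : m ∈ S3 := by simpa using hm
    refine (hWbig m hm').trans ?_
    have hWf : (Wset Φ T η m).Finite := hUfin.subset (hWU m hm')
    rw [Set.ncard_eq_toFinset_card _ hWf]
    have : hWf.toFinset ⊆ hUfin.toFinset.filter fun w => qM w = m := by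
      intro w hw
      rw [Set.Finite.mem_toFinset] at hw
      rw [Finset.mem_filter, Set.Finite.mem_toFinset]
      exact ⟨hWU m hm' hw, hw.1⟩
    exact_mod_cast Finset.card_le_card this
  have hUb : (U.ncard : ℝ) ≤ 2 * cL * (cM / 2 + θ) * Z := by
    refine hUle.trans (mul_le_mul_of_nonneg_right ?_ hZ0.le)
    have h1 : (S.ncard : ℝ) / (Ideal.absNorm (∏ p ∈ Q, p.asIdeal ^ 2) : ℝ) ^ 4 * K ≤
        (Pk k * Dk k + cL * θ / K) * K :=
      mul_le_mul_of_nonneg_right (hScard.trans hdf) hK0.le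
    have h2 : (Pk k * Dk k + cL * θ / K) * K = cL * cM + cL * θ := by
      rw [add_mul, hKc, div_mul_cancel₀ _ hK0.ne']
    rw [h2] at h1
    linarith
  have hc3 : (S3.ncard : ℝ) ≤ (cM / 2 + θ) / (1 - θ) * Z := by
    have h1 : (S3.ncard : ℝ) * (2 * ((1 - θ) * cL)) ≤ 2 * cL * (cM / 2 + θ) * Z :=
      hc3'.trans hUb
    have h2 : 0 < 1 - θ := by linarith
    rw [div_mul_eq_mul_div, le_div_iff₀ h2]
    have h3 : (S3.ncard : ℝ) * (1 - θ) * (2 * cL) ≤ (cM / 2 + θ) * Z * (2 * cL) := by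
      linarith
    exact le_of_mul_le_mul_right h3 (by positivity)
  have hun : ((S1 ∪ (S2 ∪ S3)).ncard : ℝ) ≤ S1.ncard + (S2.ncard + S3.ncard) := by
    have h1 := Set.ncard_union_le S1 (S2 ∪ S3)
    have h2 := Set.ncard_union_le S2 S3
    have h3 : (S1 ∪ (S2 ∪ S3)).ncard ≤ S1.ncard + (S2.ncard + S3.ncard) := by omega
    exact_mod_cast h3
  have hM := hZ₂ Z hZZ₂
  have hcount' : (({m | m ∈ Mset Φ Z ∧ ((∃ x : k, x ^ 2 = 3 * (m : k)) ∨
        ∃ a b c d : 𝓞 k, Irr a b c d ∧ (∀ φ : k →+* ℝ, 0 < φ (fP a b c : 𝓞 k)) ∧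
          fM a b c d = m)}.ncard : ℕ) : ℝ) ≤ ((S1 ∪ (S2 ∪ S3)).ncard : ℝ) := by
    exact_mod_cast hcount
  refine hcount'.trans (hun.trans ?_)
  have hfin1 : (S1.ncard : ℝ) + (S2.ncard + S3.ncard) ≤
      (2 * θ + (cM / 2 + θ) / (1 - θ)) * Z := by linarith
  refine hfin1.trans ?_
  refine (mul_le_mul_of_nonneg_right hθ hZ0.le).trans ?_
  rw [mul_assoc]
  exact mul_le_mul_of_nonneg_left hM (by positivity)

end Pool.Agent.LeoK.H33
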